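import Pool.Agent.H55.Cell.Main

/-!
# Full-dimensional lattice path flag matroid polytopes are cells of subdivisions of the
permutahedron into Bruhat interval polytopes

The definitions are in `Pool.Agent.H55.Cell.Statement`.

*Proof.*
1. (`H55/Cell/Key`) For a real array all of whose flag minors are nonnegative, the permutations
   `z` all of whose prefix sets `z[k]` carry a nonzero minor form a Bruhat interval: induction on
   the largest such permutation, swapping two adjacent columns of an echelon form at a descent.
2. (`H55/Cell/Exist`) Every Bruhat interval occurs in this way.
3. (`H55/Cell/Asym`) Elementary row operations make all flag minors polynomials in `t` with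
   nonnegative coefficients, not identically zero, which specialise to the given ones at `t = 0`.
4. (`H55/Cell/Limit`, `H55/Cell/Height`) The height function `∑ k, ord (minor of z[k])` vanishes
   exactly on the given interval, and after adding any linear functional its set of minimisers is
   the support of a limit of torus translates, hence again a Bruhat interval.
5. (`H55/Cell/Reg`) The full-dimensional lower faces cover and meet face to face.
6. (`H55/Cell/Greedy`, `H55/Cell/Flag`) The polytope of a lattice path flag matroid is the
   Bruhat interval polytope spanned by its flags of bases (greedy algorithm).
-/

set_option autoImplicit false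

namespace Pool.Agent.Results.MP_da1dad_co.LPFMCells

open Pool.Agent.H55.Cell

/-- For every `n`, the polytope of every full-dimensional lattice path flag matroid on
`{1, ..., n}` is a maximal cell of a subdivision of the permutahedron into Bruhat interval
polytopes. -/
theorem result (n : ℕ) (M : Fin n → Matroid (Fin n)) (hM : IsLPFM M)
    (hdim : FullDim (flagPolytope M)) :
    ∃ 𝒮 : Set (Set (Fin n → ℝ)), IsBIPSubdivision 𝒮 ∧ flagPolytope M ∈ 𝒮 := by
  obtain ⟨u, v, huv, h⟩ := flagPolytope_bip hM
  rw [h] at hdim ⊢
  exact exists_subdivision huv hdim

end Pool.Agent.Results.MP_da1dad_co.LPFMCells
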